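import Pool.Agent.Helper23.SM.Union

set_option autoImplicit false

/-!
# Project SM (MP_120218), smoothed version: the union bound for an arbitrary property
-/

namespace Pool.Agent.Helper23.SM

open Finset Pool.Agent.Helper88.MP
open scoped Pointwise

open Classical in
/-- **the union bound** for a property `Good c b P` (`b` the number of elements which are moved, `P` the
set after the moves) and `q ≤ N ^ c` -/
theorem unionGood (δ : ℝ) (hδ : 0 < δ) (Good : ℝ → ℕ → Finset ℤ → Prop)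
    (hanti : ∀ c c' : ℝ, 0 < c → c ≤ c' → ∀ b P, Good c' b P → Good c b P)
    (hfew : ∃ (C : ℕ) (c : ℝ), 1 ≤ C ∧ 0 < c ∧
      ∀ (α : Type) [Fintype α] [DecidableEq α] [Nonempty α] (v : α → ℤ), Function.Injective v →
        ∀ q : ℕ, 1 ≤ q → (q : ℝ) ≤ (Fintype.card α : ℝ) ^ c →
        ((univ : Finset (α → Fin q)).filter (fun f =>
          ¬ Good c (Fintype.card α) (per v f))).card ≤ C ^ Fintype.card α) :
    ∃ C c : ℝ, 0 < C ∧ 0 < c ∧ ∀ A : Finset ℤ, A.Nonempty → ∀ q : ℕ, 1 ≤ q →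
      (q : ℝ) ≤ (A.card : ℝ) ^ c →
      ∀ n : ℕ, (A.card : ℝ) ^ δ ≤ n → C * A.card ≤ q * n →
        (((univ : Finset ({a // a ∈ A} → Fin q)).filter (fun f =>
          ¬ ∀ B : Finset {a // a ∈ A}, n ≤ B.card → Good c B.card (B.image
                (fun a : {a // a ∈ A} => (a : ℤ) + ((f a : ℕ) : ℤ))))).card : ℝ) ≤
          (1 / 2) ^ n * (q : ℝ) ^ A.card := by
  obtain ⟨C0, c0, hC0, hc0, hmain⟩ := hfew
  have hC0' : (1 : ℝ) ≤ (C0 : ℝ) := by exact_mod_cast hC0
  obtain ⟨c, hc, hcc0, hcδ⟩ : ∃ c : ℝ, 0 < c ∧ c ≤ c0 ∧ c ≤ δ * c0 :=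
    ⟨min c0 (δ * c0), by positivity, min_le_left _ _, min_le_right _ _⟩
  refine ⟨8 * (C0 : ℝ), c, by positivity, hc, ?_⟩
  intro A hA q hq hqA n hn hqn
  have hq0 : (0 : ℝ) < (q : ℝ) := by exact_mod_cast hq
  obtain ⟨N, hN⟩ : ∃ N : ℝ, N = (A.card : ℝ) := ⟨_, rfl⟩
  have hN1' : 1 ≤ N := by
    rw [hN]
    exact_mod_cast Finset.card_pos.2 hA
  have hNp : 0 < N := by linarith
  rw [← hN] at hqA hn hqn
  have hnp : 0 < n := by
    have : (0 : ℝ) < (n : ℝ) := lt_of_lt_of_le (Real.rpow_pos_of_pos hNp δ) hn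
    exact_mod_cast this
  obtain ⟨bad, hbad⟩ : ∃ bad : Finset {a // a ∈ A} → Finset ({a // a ∈ A} → Fin q),
      ∀ B, bad B = (univ : Finset ({a // a ∈ A} → Fin q)).filter (fun f =>
        ¬ Good c B.card (B.image (fun a : {a // a ∈ A} => (a : ℤ) + ((f a : ℕ) : ℤ)))) :=
    ⟨_, fun _ => rfl⟩
  have hone : ∀ B : Finset {a // a ∈ A}, n ≤ B.card →
      (bad B).card ≤ C0 ^ B.card * q ^ (Fintype.card {a // a ∈ A} - B.card) := by
    intro B hB
    have hB0 : 0 < B.card := lt_of_lt_of_le hnp hB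
    have hBn : N ^ δ ≤ (B.card : ℝ) := hn.trans (by exact_mod_cast hB)
    have : Nonempty {b // b ∈ B} := by
      obtain ⟨b, hb⟩ := Finset.card_pos.1 hB0
      exact ⟨⟨b, hb⟩⟩
    have h3 := hmain {b // b ∈ B} (fun b => ((b : {a // a ∈ A}) : ℤ))
      (fun b b' hbb => Subtype.ext (Subtype.ext hbb)) q hq
      (by
        rw [Fintype.card_coe]
        refine hqA.trans ?_
        calc N ^ c ≤ N ^ (δ * c0) := Real.rpow_le_rpow_of_exponent_le hN1' hcδ
          _ = (N ^ δ) ^ c0 := Real.rpow_mul hNp.le _ _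
          _ ≤ (B.card : ℝ) ^ c0 := Real.rpow_le_rpow (by positivity) hBn hc0.le)
    rw [Fintype.card_coe] at h3
    refine (card_restrict q B _ (bad B) ?_).trans (Nat.mul_le_mul_right _ h3)
    intro f hf
    rw [hbad, mem_filter] at hf
    refine mem_filter.2 ⟨mem_univ _, ?_⟩
    intro h4
    apply hf.2
    have h5 : per (fun b : {b // b ∈ B} => ((b : {a // a ∈ A}) : ℤ))
        (fun a : {a // a ∈ B} => f a) =
        B.image (fun a : {a // a ∈ A} => (a : ℤ) + ((f a : ℕ) : ℤ)) := by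
      ext z
      simp only [per, mem_image, mem_univ, true_and]
      constructor
      · rintro ⟨⟨a, ha⟩, rfl⟩
        exact ⟨a, ha, rfl⟩
      · rintro ⟨a, ha, rfl⟩
        exact ⟨⟨a, ha⟩, rfl⟩
    rw [h5] at h4
    exact hanti c c0 hc hcc0 _ _ h4
  have hsub : (univ : Finset ({a // a ∈ A} → Fin q)).filter (fun f =>
        ¬ ∀ B : Finset {a // a ∈ A}, n ≤ B.card → Good c B.card (B.image
              (fun a : {a // a ∈ A} => (a : ℤ) + ((f a : ℕ) : ℤ)))) ⊆
      ((univ : Finset (Finset {a // a ∈ A})).filter (fun B => n ≤ B.card)).biUnion bad := by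
    intro f hf
    have h1 := (mem_filter.1 hf).2
    push Not at h1
    obtain ⟨B, hB1, hB2⟩ := h1
    refine mem_biUnion.2 ⟨B, mem_filter.2 ⟨mem_univ _, hB1⟩, ?_⟩
    rw [hbad]
    exact mem_filter.2 ⟨mem_univ _, hB2⟩
  have hcardA : Fintype.card {a // a ∈ A} = A.card := Fintype.card_coe A
  have hterm : ∀ B ∈ (univ : Finset (Finset {a // a ∈ A})).filter (fun B => n ≤ B.card),
      ((bad B).card : ℝ) ≤ ((C0 : ℝ) / (q : ℝ)) ^ B.card * (q : ℝ) ^ A.card := by
    intro B hB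
    have h1 : ((bad B).card : ℝ) ≤
        (C0 : ℝ) ^ B.card * (q : ℝ) ^ (Fintype.card {a // a ∈ A} - B.card) := by
      exact_mod_cast hone B (mem_filter.1 hB).2
    refine h1.trans (le_of_eq ?_)
    have hBA : B.card ≤ A.card := by
      have := card_le_univ B
      rwa [Fintype.card_coe] at this
    rw [hcardA]
    have h6 : (q : ℝ) ^ A.card = (q : ℝ) ^ B.card * (q : ℝ) ^ (A.card - B.card) := by
      rw [← pow_add]
      congr 1
      omega
    rw [h6, div_pow]
    field_simp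
  calc (((univ : Finset ({a // a ∈ A} → Fin q)).filter (fun f =>
        ¬ ∀ B : Finset {a // a ∈ A}, n ≤ B.card → Good c B.card (B.image
              (fun a : {a // a ∈ A} => (a : ℤ) + ((f a : ℕ) : ℤ))))).card : ℝ)
      ≤ ((((univ : Finset (Finset {a // a ∈ A})).filter
          (fun B => n ≤ B.card)).biUnion bad).card : ℝ) := by
        exact_mod_cast card_le_card hsub
    _ ≤ ∑ B ∈ (univ : Finset (Finset {a // a ∈ A})).filter (fun B => n ≤ B.card),
        ((bad B).card : ℝ) := by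
        exact_mod_cast card_biUnion_le
    _ ≤ ∑ B ∈ (univ : Finset (Finset {a // a ∈ A})).filter (fun B => n ≤ B.card),
        ((C0 : ℝ) / (q : ℝ)) ^ B.card * (q : ℝ) ^ A.card := sum_le_sum hterm
    _ = (∑ B ∈ (univ : Finset (Finset {a // a ∈ A})).filter (fun B => n ≤ B.card),
        ((C0 : ℝ) / (q : ℝ)) ^ B.card) * (q : ℝ) ^ A.card := by rw [sum_mul]
    _ ≤ (1 / 2) ^ n * (q : ℝ) ^ A.card := by
        apply mul_le_mul_of_nonneg_right _ (by positivity)
        apply sum_large _ _ (by positivity)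
        rw [hcardA, ← hN]
        have h1 : 8 * ((C0 : ℝ) / (q : ℝ)) * N = (8 * (C0 : ℝ) * N) / q := by ring
        rw [h1, div_le_iff₀ hq0]
        linarith

end Pool.Agent.Helper23.SM
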