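import Pool.Agent.Helper24.TG.G15

set_option autoImplicit false

/-!
# Project SM (MP_120218), products with groups of small diameter

The one-step inequality for a set which is a union of disjoint `m`-element groups of small diameter,
over the integers, from the theorem behind `Helper24/Slots/TranslatesSlot.lean`.
-/

namespace Pool.Agent.Helper23.SM

open Finset
open scoped Pointwise Polynomial

/-- comparison of the two product sets -/
theorem ncard_le (A X : Finset ℤ) :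
    ({y : ℂ | ∃ a : Fin 1 → ℤ, (∀ i, a i ∈ A) ∧ ∃ b ∈ X.image (fun x : ℤ => (x : ℂ)),
      y = (∏ i, ((((fun _ : Fin 1 => (Polynomial.X : ℤ[X])) i).eval (a i) : ℤ) : ℂ)) * b}.ncard : ℝ)
      ≤ ((X * A).card : ℝ) := by
  have h1 : {y : ℂ | ∃ a : Fin 1 → ℤ, (∀ i, a i ∈ A) ∧ ∃ b ∈ X.image (fun x : ℤ => (x : ℂ)),
      y = (∏ i, ((((fun _ : Fin 1 => (Polynomial.X : ℤ[X])) i).eval (a i) : ℤ) : ℂ)) * b} ⊆
      (((X * A).image (fun z : ℤ => (z : ℂ)) : Finset ℂ) : Set ℂ) := by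
    rintro y ⟨a, ha, b, hb, rfl⟩
    obtain ⟨x, hx, rfl⟩ := Finset.mem_image.1 hb
    rw [Finset.mem_coe, Finset.mem_image]
    refine ⟨x * a 0, Finset.mul_mem_mul hx (ha 0), ?_⟩
    simp only [Fin.prod_univ_one, Polynomial.eval_X]
    push_cast
    ring
  have h2 := Set.ncard_le_ncard h1 (Finset.finite_toSet _)
  rw [Set.ncard_coe_finset] at h2
  exact_mod_cast h2.trans Finset.card_image_le

/-- the case of sets with many groups -/
theorem oneGroups0 (ε : ℝ) (hε : 0 < ε) : ∃ (m : ℕ) (c : ℝ), 1 ≤ m ∧ 0 < c ∧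
    ∀ (S : Finset ℤ) (G : ℤ → Finset ℤ) (q : ℕ), S.Nonempty →
      ((m : ℝ) * (S.card : ℝ)) ^ (1 - c) ≤ (S.card : ℝ) → (3 : ℝ) ≤ (S.card : ℝ) →
      (∀ s ∈ S, (G s).card = m) →
      (∀ s ∈ S, ∀ s' ∈ S, s ≠ s' → Disjoint (G s) (G s')) →
      (∀ s ∈ S, ∀ a ∈ G s, ∀ b ∈ G s, |a - b| ≤ (q : ℤ)) →
      (q : ℝ) ≤ (S.card : ℝ) ^ (c * Real.log (Real.log (S.card : ℝ))) →
      (∀ s ∈ S, (0 : ℤ) ∉ G s) →
      ∀ X : Finset ℤ, X.Nonempty → (0 : ℤ) ∉ X →
        c * (((m : ℝ) * (S.card : ℝ)) ^ (1 - ε) * (X.card : ℝ) ^ (1 - ε)) ≤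
          ((X * S.biUnion G).card : ℝ) := by
  obtain ⟨m0, c, hc, h1, -⟩ := Pool.Agent.Helper99.FS.result_of2
    (Pool.Agent.Helper99.TR.trz Pool.Agent.Helper34.TR.nzMixT)
    (Pool.Agent.Helper99.RT.rtz Pool.Agent.Helper99.RT.nrMix)
    Pool.Agent.Helper99.FS.fewZU 1 1 le_rfl ε hε
  obtain ⟨m, hm⟩ : ∃ m : ℕ, m = max m0 1 := ⟨_, rfl⟩
  have hm1 : 1 ≤ m := hm ▸ le_max_right _ _
  refine ⟨m, c, hm1, hc, ?_⟩
  intro S G q hS hSc hS3 hGc hGd hGq hq hG0 X hX hX0
  obtain ⟨A, hA⟩ : ∃ A : Finset ℤ, A = S.biUnion G := ⟨_, rfl⟩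
  have hAc : A.card = m * S.card := by
    rw [hA, Finset.card_biUnion hGd, Finset.sum_congr rfl hGc, Finset.sum_const, smul_eq_mul,
      mul_comm]
  have hAcR : (A.card : ℝ) = (m : ℝ) * (S.card : ℝ) := by exact_mod_cast hAc
  have hGne : ∀ s ∈ S, (G s).Nonempty := fun s hs => Finset.card_pos.1 (by rw [hGc s hs]; omega)
  obtain ⟨s0, hs0⟩ := hS
  obtain ⟨a0, ha0⟩ := hGne s0 hs0
  have ha0A : a0 ∈ A := hA ▸ Finset.mem_biUnion.2 ⟨s0, hs0, ha0⟩
  have ha00 : a0 ≠ 0 := fun h => hG0 s0 hs0 (h ▸ ha0)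
  have hAne : A.Nonempty := ⟨a0, ha0A⟩
  have hSA : (S.card : ℝ) ≤ (A.card : ℝ) := by
    rw [hAcR]
    have : (1 : ℝ) ≤ (m : ℝ) := by exact_mod_cast hm1
    nlinarith
  have hlog1 : 1 ≤ Real.log (S.card : ℝ) := by
    rw [Real.le_log_iff_exp_le (by linarith)]
    exact (Real.exp_one_lt_d9.le.trans (by norm_num)).trans hS3
  have hlogSA : Real.log (S.card : ℝ) ≤ Real.log (A.card : ℝ) :=
    Real.log_le_log (by linarith) hSA
  have hll0 : 0 ≤ Real.log (Real.log (S.card : ℝ)) := Real.log_nonneg hlog1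
  have hllSA : Real.log (Real.log (S.card : ℝ)) ≤ Real.log (Real.log (A.card : ℝ)) :=
    Real.log_le_log (by linarith) hlogSA
  have hHS : (S.card : ℝ) ^ (c * Real.log (Real.log (S.card : ℝ))) ≤
      (A.card : ℝ) ^ (c * Real.log (Real.log (A.card : ℝ))) :=
    (Real.rpow_le_rpow (by linarith) hSA (by positivity)).trans
      (Real.rpow_le_rpow_of_exponent_le (by linarith) (mul_le_mul_of_nonneg_left hllSA hc.le))
  have hHA1 : (1 : ℝ) ≤ (A.card : ℝ) ^ (c * Real.log (Real.log (A.card : ℝ))) :=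
    Real.one_le_rpow (by linarith) (mul_nonneg hc.le (hll0.trans hllSA))
  obtain ⟨Z, hZ, hmain⟩ := h1 A hAne
  have hX' : (X.image (fun x : ℤ => (x : ℂ))).Nonempty := hX.image _
  have hX0' : (0 : ℂ) ∉ X.image (fun x : ℤ => (x : ℂ)) := by
    intro h
    obtain ⟨x, hx, hx0⟩ := Finset.mem_image.1 h
    exact hX0 (by
      have : x = 0 := by exact_mod_cast hx0
      exact this ▸ hx)
  have hXc : ((X.image (fun x : ℤ => (x : ℂ))).card : ℝ) = (X.card : ℝ) := by
    rw [Finset.card_image_of_injective _ Int.cast_injective]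
  have hdeg : ∀ i : Fin 1, 1 ≤ (((fun _ : Fin 1 => (Polynomial.X : ℤ[X])) i)).natDegree ∧
      (((fun _ : Fin 1 => (Polynomial.X : ℤ[X])) i)).natDegree ≤ 1 := by
    intro i
    simp
  have hne : ∀ i : Fin 1, ∃ a ∈ A, (((fun _ : Fin 1 => (Polynomial.X : ℤ[X])) i)).eval a ≠ 0 := by
    intro i
    exact ⟨a0, ha0A, by simpa using ha00⟩
  have hfin := (hmain (fun _ => Polynomial.X) hdeg (by
    rcases Nat.eq_zero_or_pos m0 with h0 | h0
    · left
      intro i
      refine ⟨?_, ?_⟩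
      · intro j
        rw [Polynomial.coeff_X]
        split_ifs <;> simp only [Int.cast_one, Int.cast_zero, abs_one, abs_zero] <;> linarith
      · intro z hz
        have : Z.card = 0 := by omega
        rw [Finset.card_eq_zero] at this
        rw [this] at hz
        exact absurd hz (Finset.notMem_empty z)
    · right
      refine ⟨Or.inr ⟨S.image G, ?_, ?_, ?_⟩, hne⟩
      · rw [Finset.card_image_of_injOn]
        · rw [hAcR]
          exact hSc
        · intro s hs s' hs' hss'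
          by_contra hns
          have hd := hGd s hs s' hs' hns
          have h2 : G s = G s' := hss'
          rw [← h2, disjoint_self] at hd
          exact (hGne s hs).ne_empty hd
      · intro W hW
        obtain ⟨s, hs, rfl⟩ := Finset.mem_image.1 hW
        refine ⟨?_, ?_, ?_⟩
        · rw [hA]
          exact Finset.subset_biUnion_of_mem G hs
        · rw [hGc s hs, hm, max_eq_left (by omega)]
        · intro a ha b hb
          have h2 : (|((a - b : ℤ) : ℝ)|) ≤ (q : ℝ) := by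
            have := hGq s hs a ha b hb
            exact_mod_cast this
          exact h2.trans (hq.trans hHS)
      · intro W hW W' hW' hne'
        obtain ⟨s, hs, rfl⟩ := Finset.mem_image.1 hW
        obtain ⟨s', hs', rfl⟩ := Finset.mem_image.1 hW'
        exact hGd s hs s' hs' (fun h => hne' (by rw [h])))
    (X.image (fun x : ℤ => (x : ℂ))) hX').1 hX0'
  have hfin2 := hfin.trans (ncard_le A X)
  rw [hXc, hAcR, hA] at hfin2
  simpa [mul_assoc] using hfin2

/-- **products with a union of groups of small diameter** -/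
theorem oneGroups (ε : ℝ) (hε : 0 < ε) : ∃ (m : ℕ) (c : ℝ), 1 ≤ m ∧ 0 < c ∧
    ∀ (S : Finset ℤ) (G : ℤ → Finset ℤ) (q : ℕ), S.Nonempty →
      (∀ s ∈ S, (G s).card = m) →
      (∀ s ∈ S, ∀ s' ∈ S, s ≠ s' → Disjoint (G s) (G s')) →
      (∀ s ∈ S, ∀ a ∈ G s, ∀ b ∈ G s, |a - b| ≤ (q : ℤ)) →
      (q : ℝ) ≤ (S.card : ℝ) ^ (c * Real.log (Real.log (S.card : ℝ))) →
      (∀ s ∈ S, (0 : ℤ) ∉ G s) →
      ∀ X : Finset ℤ, X.Nonempty → (0 : ℤ) ∉ X →
        c * ((S.card : ℝ) * (X.card : ℝ)) ^ (1 - ε) ≤ ((X * S.biUnion G).card : ℝ) := by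
  obtain ⟨ε', hε'⟩ : ∃ ε' : ℝ, ε' = min ε 1 := ⟨_, rfl⟩
  have hε'0 : 0 < ε' := hε' ▸ lt_min hε one_pos
  have hε'1 : ε' ≤ 1 := hε' ▸ min_le_right _ _
  have hε'2 : ε' ≤ ε := hε' ▸ min_le_left _ _
  obtain ⟨m, c0, hm1, hc0, hmain⟩ := oneGroups0 ε' hε'0
  have hm1' : (1 : ℝ) ≤ (m : ℝ) := by exact_mod_cast hm1
  obtain ⟨N0, hN0⟩ : ∃ N0 : ℝ, N0 = max 3 ((m : ℝ) ^ (1 / c0)) := ⟨_, rfl⟩
  have hN03 : 3 ≤ N0 := hN0 ▸ le_max_left _ _
  have hN0m : (m : ℝ) ^ (1 / c0) ≤ N0 := hN0 ▸ le_max_right _ _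
  refine ⟨m, min c0 (1 / N0), hm1, by positivity, ?_⟩
  intro S G q hS hGc hGd hGq hq hG0 X hX hX0
  obtain ⟨n, hn⟩ : ∃ n : ℝ, n = (S.card : ℝ) := ⟨_, rfl⟩
  have hn1 : 1 ≤ n := by
    rw [hn]
    exact_mod_cast Finset.card_pos.2 hS
  obtain ⟨x, hx⟩ : ∃ x : ℝ, x = (X.card : ℝ) := ⟨_, rfl⟩
  have hx1 : 1 ≤ x := by
    rw [hx]
    exact_mod_cast Finset.card_pos.2 hX
  have hnx1 : 1 ≤ n * x := by nlinarith
  rw [← hn, ← hx]
  rw [← hn] at hq
  have hexp : (n * x) ^ (1 - ε) ≤ (n * x) ^ (1 - ε') :=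
    Real.rpow_le_rpow_of_exponent_le hnx1 (by linarith)
  have hpos : 0 ≤ (n * x) ^ (1 - ε') := by positivity
  by_cases hbig : N0 ≤ n
  · have hn3 : 3 ≤ n := hN03.trans hbig
    have hlog1 : 1 ≤ Real.log n := by
      rw [Real.le_log_iff_exp_le (by linarith)]
      exact (Real.exp_one_lt_d9.le.trans (by norm_num)).trans hn3
    have hll0 : 0 ≤ Real.log (Real.log n) := Real.log_nonneg hlog1
    have hSc : ((m : ℝ) * n) ^ (1 - c0) ≤ n := by
      by_cases hc1 : 1 ≤ c0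
      · have h1 : ((m : ℝ) * n) ^ (1 - c0) ≤ 1 :=
          Real.rpow_le_one_of_one_le_of_nonpos (by nlinarith) (by linarith)
        linarith
      · push Not at hc1
        have h1 : (m : ℝ) ≤ n ^ c0 := by
          have h2 : ((m : ℝ) ^ (1 / c0)) ^ c0 ≤ n ^ c0 :=
            Real.rpow_le_rpow (by positivity) (hN0m.trans hbig) hc0.le
          rwa [← Real.rpow_mul (by positivity), one_div, inv_mul_cancel₀ hc0.ne',
            Real.rpow_one] at h2
        have h3 : (m : ℝ) ^ (1 - c0) ≤ (m : ℝ) := by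
          calc (m : ℝ) ^ (1 - c0) ≤ (m : ℝ) ^ (1 : ℝ) :=
                Real.rpow_le_rpow_of_exponent_le hm1' (by linarith)
            _ = (m : ℝ) := Real.rpow_one _
        have h4 : n = n ^ c0 * n ^ (1 - c0) := by
          rw [← Real.rpow_add (by linarith)]
          simp
        rw [Real.mul_rpow (by positivity) (by positivity)]
        calc (m : ℝ) ^ (1 - c0) * n ^ (1 - c0) ≤ n ^ c0 * n ^ (1 - c0) :=
              mul_le_mul_of_nonneg_right (h3.trans h1) (by positivity)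
          _ = n := h4.symm
    have h5 := hmain S G q hS (by rw [← hn]; exact hSc) (by rw [← hn]; exact hn3) hGc hGd hGq
      (by
        rw [← hn]
        refine hq.trans (Real.rpow_le_rpow_of_exponent_le hn1 ?_)
        exact mul_le_mul_of_nonneg_right (min_le_left _ _) hll0) hG0 X hX hX0
    rw [← hn, ← hx] at h5
    have h6 : (n * x) ^ (1 - ε') ≤ ((m : ℝ) * n) ^ (1 - ε') * x ^ (1 - ε') := by
      rw [← Real.mul_rpow (by positivity) (by positivity)]
      refine Real.rpow_le_rpow (by positivity) ?_ (by linarith)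
      nlinarith
    calc min c0 (1 / N0) * (n * x) ^ (1 - ε) ≤ c0 * (n * x) ^ (1 - ε') :=
          mul_le_mul (min_le_left _ _) hexp (by positivity) hc0.le
      _ ≤ c0 * (((m : ℝ) * n) ^ (1 - ε') * x ^ (1 - ε')) := mul_le_mul_of_nonneg_left h6 hc0.le
      _ ≤ _ := h5
  · push Not at hbig
    obtain ⟨s0, hs0⟩ := hS
    have hne : (G s0).Nonempty := Finset.card_pos.1 (by rw [hGc s0 hs0]; omega)
    obtain ⟨a0, ha0⟩ := hne
    have ha00 : a0 ≠ 0 := fun h => hG0 s0 hs0 (h ▸ ha0)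
    have h1 : x ≤ ((X * S.biUnion G).card : ℝ) := by
      rw [hx]
      have h2 : (X.image (fun y => y * a0)).card = X.card :=
        Finset.card_image_of_injective _ (mul_left_injective₀ ha00)
      rw [← h2]
      have h3 : X.image (fun y => y * a0) ⊆ X * S.biUnion G := by
        intro z hz
        obtain ⟨y, hy, rfl⟩ := Finset.mem_image.1 hz
        exact Finset.mul_mem_mul hy (Finset.mem_biUnion.2 ⟨s0, hs0, ha0⟩)
      exact_mod_cast Finset.card_le_card h3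
    have h4 : (n * x) ^ (1 - ε') ≤ N0 * x := by
      calc (n * x) ^ (1 - ε') ≤ (n * x) ^ (1 : ℝ) :=
            Real.rpow_le_rpow_of_exponent_le hnx1 (by linarith)
        _ = n * x := Real.rpow_one _
        _ ≤ N0 * x := by nlinarith
    calc min c0 (1 / N0) * (n * x) ^ (1 - ε) ≤ 1 / N0 * (N0 * x) :=
          mul_le_mul (min_le_right _ _) (hexp.trans h4) (by positivity) (by positivity)
      _ = x := by field_simp
      _ ≤ _ := h1

end Pool.Agent.Helper23.SM
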