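import Pool.Agent.Helper88.MP.SmoothC
import Pool.Agent.Helper88.MP.AllX
import Pool.Agent.Helper23.SM.Groups
import Pool.Agent.Helper23.SM.FinalS

set_option autoImplicit false

namespace Pool.Agent.Results.MP_120218_co.Smoothed

open Finset

/-- **The Erdős–Szemerédi conjecture after small random moves, by products alone, for every set and
all its large subsets.**

For all `k ≥ 1` and `ε, δ > 0` there are `C, c > 0` such that the following holds for every finite
non-empty set `A` of integers, `N = |A|`, and all integers `q ≥ 1` and `n ≥ N ^ δ`; for a map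
`f : A → {0, …, q - 1}` and a subset `B` of `A` let `B_f = {b + f(b) : b ∈ B}`.

(1) If `q ≤ N ^ c`, then all but at most `(C N / (q n)) ^ n q ^ N` of the `q ^ N` maps `f` are such that
`|B_f^k X| ≥ c |B|^(k-ε) |X|^(1-ε)` for every subset `B` of `A` with at least `n` elements and every
finite non-empty set `X` of non-zero complex numbers.

(2) If `q ≤ N ^ (c log log N)` and every interval of `q` integers has at most `N ^ c` elements of `A`,
then all but at most `(C N / (q n)) ^ n q ^ N` of the `q ^ N` maps `f` are such that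
`|B_f^k| ≥ c |B|^(k-ε)` for every subset `B` of `A` with at least `n` elements.

For `n = N` this says that at most `C ^ N` of the `q ^ N` maps fail for `B = A`. -/
theorem result :
    ∀ k : ℕ, 1 ≤ k → ∀ ε δ : ℝ, 0 < ε → 0 < δ → ∃ C c : ℝ, 0 < C ∧ 0 < c ∧
      ∀ A : Finset ℤ, A.Nonempty → ∀ q n : ℕ, 1 ≤ q → (A.card : ℝ) ^ δ ≤ n →
        ((q : ℝ) ≤ (A.card : ℝ) ^ c →
          ({f : A → Fin q | ¬ ∀ B : Finset A, n ≤ B.card →
            ∀ X : Finset ℂ, X.Nonempty → (0 : ℂ) ∉ X →
              c * (B.card : ℝ) ^ ((k : ℝ) - ε) * (X.card : ℝ) ^ (1 - ε) ≤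
                ({y : ℂ | ∃ b : Fin k → A, (∀ i, b i ∈ B) ∧ ∃ x ∈ X,
                  y = (∏ i, (((b i : ℤ) + ((f (b i) : ℕ) : ℤ) : ℤ) : ℂ)) * x}.ncard : ℝ)}.ncard : ℝ)
            ≤ (C * A.card / (q * n)) ^ n * (q : ℝ) ^ A.card) ∧
        ((q : ℝ) ≤ (A.card : ℝ) ^ (c * Real.log (Real.log A.card)) →
          (∀ x : ℤ, ((A.filter (fun a => x ≤ a ∧ a < x + q)).card : ℝ) ≤ (A.card : ℝ) ^ c) →
          ({f : A → Fin q | ¬ ∀ B : Finset A, n ≤ B.card →
            c * (B.card : ℝ) ^ ((k : ℝ) - ε) ≤
              ({y : ℤ | ∃ b : Fin k → A, (∀ i, b i ∈ B) ∧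
                y = ∏ i, ((b i : ℤ) + ((f (b i) : ℕ) : ℤ))}.ncard : ℝ)}.ncard : ℝ)
            ≤ (C * A.card / (q * n)) ^ n * (q : ℝ) ^ A.card) := by
  classical
  intro k hk ε δ hε hδ
  obtain ⟨C1, c1, hC1, hc1, h1⟩ := Helper23.SM.smoothedXS
    (fun k ε hk hε => Helper88.MP.allX k ε hk hε) k hk ε δ hε hδ
  obtain ⟨C2, c2, hC2, hc2, h2⟩ := Helper23.SM.unionBoundS k ε δ hε hδ
    (Helper88.MP.fewbadG (fun ε hε => by
      obtain ⟨m, c, hm, hc, h⟩ := Helper23.SM.oneGroups ε hε
      exact ⟨m, c, hm, hc, h⟩) k hk ε hε)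
  refine ⟨max C1 C2, min c1 c2, by positivity, by positivity, ?_⟩
  intro A hA q n hq hn
  have hA1 : (1 : ℝ) ≤ (A.card : ℝ) := by exact_mod_cast Finset.card_pos.2 hA
  have hfin : ∀ s : Set (A → Fin q), s.Finite := fun s => Set.toFinite s
  have hmono : ∀ C' : ℝ, C' ≤ max C1 C2 → 0 ≤ C' →
      (C' * A.card / (q * n)) ^ n * (q : ℝ) ^ A.card ≤
        (max C1 C2 * A.card / (q * n)) ^ n * (q : ℝ) ^ A.card := by
    intro C' hC' hC'0
    apply mul_le_mul_of_nonneg_right _ (by positivity)
    apply pow_le_pow_left₀ (by positivity)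
    exact div_le_div_of_nonneg_right
      (mul_le_mul_of_nonneg_right hC' (by positivity)) (by positivity)
  constructor
  · intro hqA
    have h3 := h1 A hA q n hq hn
      (hqA.trans (Real.rpow_le_rpow_of_exponent_le hA1 (min_le_left _ _)))
    refine le_trans (Nat.cast_le.2 (Set.ncard_le_ncard ?_ (hfin _))) (h3.trans
      (hmono C1 (le_max_left _ _) hC1.le))
    intro f hf hcon
    apply hf
    intro B hB X hX hX0
    refine le_trans ?_ (hcon B hB X hX hX0)
    exact mul_le_mul_of_nonneg_right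
      (mul_le_mul_of_nonneg_right (min_le_left _ _) (by positivity)) (by positivity)
  · intro hqA hint
    by_cases hll : 0 ≤ Real.log (Real.log (A.card : ℝ))
    · have h3 := h2 A hA q hq
        (hqA.trans (Real.rpow_le_rpow_of_exponent_le hA1
          (mul_le_mul_of_nonneg_right (min_le_right _ _) hll)))
        (fun x => (hint x).trans (Real.rpow_le_rpow_of_exponent_le hA1 (min_le_right _ _)))
        n hn
      refine le_trans ?_ (h3.trans (hmono C2 (le_max_right _ _) hC2.le))
      rw [← Set.ncard_coe_finset]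
      refine Nat.cast_le.2 (Set.ncard_le_ncard ?_ (hfin _))
      intro f hf
      rw [Finset.mem_coe, Finset.mem_filter]
      refine ⟨Finset.mem_univ _, fun hcon => hf ?_⟩
      intro B hB
      refine le_trans (mul_le_mul_of_nonneg_right (min_le_right _ _) (by positivity))
        (le_trans (hcon B hB) (le_of_eq ?_))
      rw [← Set.ncard_coe_finset]
      congr 2
      ext y
      rw [Finset.mem_coe, Helper23.SM.kpr, Finset.mem_image, Set.mem_ofPred_eq]
      constructor
      · rintro ⟨g, hg, rfl⟩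
        rw [Fintype.mem_piFinset] at hg
        choose b hb hbg using fun i => Finset.mem_image.1 (hg i)
        exact ⟨b, hb, Finset.prod_congr rfl fun i _ => (hbg i).symm⟩
      · rintro ⟨b, hb, rfl⟩
        refine ⟨fun i => (b i : ℤ) + ((f (b i) : ℕ) : ℤ), ?_, rfl⟩
        rw [Fintype.mem_piFinset]
        exact fun i => Finset.mem_image_of_mem _ (hb i)
    · exfalso
      push Not at hll
      have hA2 : (1 : ℝ) < (A.card : ℝ) := by
        rcases hA1.lt_or_eq with h4 | h4
        · exact h4
        · rw [← h4, Real.log_one, Real.log_zero] at hll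
          exact absurd hll (lt_irrefl _)
      have h5 : (A.card : ℝ) ^ (min c1 c2 * Real.log (Real.log A.card)) < 1 :=
        Real.rpow_lt_one_of_one_lt_of_neg hA2 (mul_neg_of_pos_of_neg (by positivity) hll)
      have h6 : (1 : ℝ) ≤ (q : ℝ) := by exact_mod_cast hq
      linarith

end Pool.Agent.Results.MP_120218_co.Smoothed
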