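import Pool.Agent.Helper88.MP.Ind

set_option autoImplicit false

/-!
# Project SM (MP_120218), smoothed version: the union bound over all large subsets
-/

namespace Pool.Agent.Helper23.SM

open Finset Pool.Agent.Helper88.MP
open scoped Pointwise

/-- the products of `k` elements -/
def kpr (k : ℕ) (A : Finset ℤ) : Finset ℤ :=
  (Fintype.piFinset (fun _ : Fin k => A)).image (fun f : Fin k → ℤ => ∏ i, f i)

theorem kpr_eq (k : ℕ) (A : Finset ℤ) : kpr k A = A ^ k := by
  ext x
  rw [Finset.mem_pow]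
  constructor
  · intro h
    obtain ⟨f, hf, rfl⟩ := Finset.mem_image.1 h
    rw [Fintype.mem_piFinset] at hf
    refine ⟨fun i => ⟨f i, hf i⟩, ?_⟩
    rw [List.prod_ofFn]
  · rintro ⟨f, rfl⟩
    refine Finset.mem_image.2 ⟨fun i => (f i : ℤ), ?_, ?_⟩
    · rw [Fintype.mem_piFinset]
      exact fun i => (f i).2
    · rw [List.prod_ofFn]

/-- the sum over the large subsets -/
theorem sum_large (α : Type) [Fintype α] (ρ : ℝ) (hρ : 0 ≤ ρ) (n : ℕ)
    (h : 8 * ρ * (Fintype.card α : ℝ) ≤ (n : ℝ)) :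
    ∑ B ∈ (univ : Finset (Finset α)).filter (fun B => n ≤ B.card), ρ ^ B.card ≤ (1 / 2) ^ n := by
  classical
  have h1 : ∀ B ∈ (univ : Finset (Finset α)).filter (fun B => n ≤ B.card),
      ρ ^ B.card ≤ (1 / 4) ^ n * (4 * ρ) ^ B.card := by
    intro B hB
    have hn : n ≤ B.card := (mem_filter.1 hB).2
    have h2 : (1 : ℝ) ≤ (1 / 4) ^ n * 4 ^ B.card := by
      have h3 : (4 : ℝ) ^ n ≤ 4 ^ B.card := pow_le_pow_right₀ (by norm_num) hn
      have h4 : (1 / 4 : ℝ) ^ n * 4 ^ n = 1 := by
        rw [← mul_pow]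
        norm_num
      calc (1 : ℝ) = (1 / 4) ^ n * 4 ^ n := h4.symm
        _ ≤ _ := mul_le_mul_of_nonneg_left h3 (by positivity)
    have h5 : 0 ≤ ρ ^ B.card := by positivity
    calc ρ ^ B.card = 1 * ρ ^ B.card := (one_mul _).symm
      _ ≤ ((1 / 4) ^ n * 4 ^ B.card) * ρ ^ B.card := mul_le_mul_of_nonneg_right h2 h5
      _ = (1 / 4) ^ n * (4 * ρ) ^ B.card := by rw [mul_pow]; ring
  calc ∑ B ∈ (univ : Finset (Finset α)).filter (fun B => n ≤ B.card), ρ ^ B.card
      ≤ ∑ B ∈ (univ : Finset (Finset α)).filter (fun B => n ≤ B.card),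
        (1 / 4) ^ n * (4 * ρ) ^ B.card := sum_le_sum h1
    _ ≤ ∑ B : Finset α, (1 / 4) ^ n * (4 * ρ) ^ B.card :=
        sum_le_sum_of_subset_of_nonneg (filter_subset _ _) fun _ _ _ => by positivity
    _ = (1 / 4) ^ n * (4 * ρ + 1) ^ Fintype.card α := by
        rw [← mul_sum]
        congr 1
        have := Fintype.sum_pow_mul_eq_add_pow α (4 * ρ) (1 : ℝ)
        simpa using this
    _ ≤ (1 / 4) ^ n * Real.exp ((n : ℝ) / 2) := by
        apply mul_le_mul_of_nonneg_left _ (by positivity)
        calc (4 * ρ + 1) ^ Fintype.card α ≤ (Real.exp (4 * ρ)) ^ Fintype.card α :=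
              pow_le_pow_left₀ (by positivity) (Real.add_one_le_exp _) _
          _ = Real.exp ((Fintype.card α : ℝ) * (4 * ρ)) := by rw [← Real.exp_nat_mul]
          _ ≤ _ := Real.exp_le_exp.2 (by linarith)
    _ ≤ (1 / 4) ^ n * 2 ^ n := by
        apply mul_le_mul_of_nonneg_left _ (by positivity)
        have h2 : Real.exp ((n : ℝ) / 2) = (Real.exp (1 / 2)) ^ n := by
          rw [← Real.exp_nat_mul]
          congr 1
          ring
        rw [h2]
        apply pow_le_pow_left₀ (Real.exp_pos _).le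
        have h3 : Real.exp (1 / 2) * Real.exp (1 / 2) = Real.exp 1 := by
          rw [← Real.exp_add]
          norm_num
        have h4 := Real.exp_one_lt_three
        have h5 := Real.exp_pos (1 / 2)
        nlinarith
    _ = (1 / 2) ^ n := by
        rw [← mul_pow]
        norm_num

/-- the number of maps with a prescribed kind of restriction to `B` -/
theorem card_restrict {α : Type} [Fintype α] [DecidableEq α] (q : ℕ) (B : Finset α)
    (P : Finset ({a // a ∈ B} → Fin q)) (F : Finset (α → Fin q))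
    (hF : ∀ f ∈ F, (fun a : {a // a ∈ B} => f a) ∈ P) :
    F.card ≤ P.card * q ^ (Fintype.card α - B.card) := by
  classical
  let E : (α → Fin q) ≃ ({a // a ∈ B} → Fin q) × ({a // ¬ a ∈ B} → Fin q) :=
    Equiv.piEquivPiSubtypeProd (fun a => a ∈ B) (fun _ => Fin q)
  have h2 : F.card ≤ (P ×ˢ (univ : Finset ({a // ¬ a ∈ B} → Fin q))).card := by
    refine card_le_card_of_injOn E ?_ E.injective.injOn
    intro f hf
    exact mem_coe.2 (mem_product.2 ⟨hF f hf, mem_univ _⟩)
  rw [card_product, card_univ, Fintype.card_fun, Fintype.card_fin,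
    Fintype.card_subtype_compl, Fintype.card_coe] at h2
  exact h2

/-- **the union bound** -/
theorem unionBound (k : ℕ) (ε δ : ℝ) (hε : 0 < ε) (hδ : 0 < δ)
    (hfew : ∃ (C : ℕ) (c : ℝ), 1 ≤ C ∧ 0 < c ∧
      ∀ (α : Type) [Fintype α] [DecidableEq α] [Nonempty α] (v : α → ℤ), Function.Injective v →
        ∀ q : ℕ, 1 ≤ q →
        (q : ℝ) ≤ (Fintype.card α : ℝ) ^ (c * Real.log (Real.log (Fintype.card α))) →
        (∀ x : ℤ, (((univ : Finset α).filter (fun a => x ≤ v a ∧ v a < x + q)).card : ℝ) ≤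
          (Fintype.card α : ℝ) ^ c) →
        ((univ : Finset (α → Fin q)).filter (fun f =>
          ¬ (c * (Fintype.card α : ℝ) ^ ((k : ℝ) - ε) ≤ (((per v f) ^ k).card : ℝ)))).card ≤
          C ^ Fintype.card α) :
    ∃ C c : ℝ, 0 < C ∧ 0 < c ∧ ∀ A : Finset ℤ, A.Nonempty → ∀ q : ℕ, 1 ≤ q →
      (q : ℝ) ≤ (A.card : ℝ) ^ (c * Real.log (Real.log A.card)) →
      (∀ x : ℤ, ((A.filter (fun a => x ≤ a ∧ a < x + q)).card : ℝ) ≤ (A.card : ℝ) ^ c) →
      ∀ n : ℕ, (A.card : ℝ) ^ δ ≤ n → C * A.card ≤ q * n →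
        (((univ : Finset ({a // a ∈ A} → Fin q)).filter (fun f =>
          ¬ ∀ B : Finset {a // a ∈ A}, n ≤ B.card →
            c * (B.card : ℝ) ^ ((k : ℝ) - ε) ≤
              ((kpr k (B.image
                (fun a : {a // a ∈ A} => (a : ℤ) + ((f a : ℕ) : ℤ)))).card : ℝ))).card : ℝ) ≤
          (1 / 2) ^ n * (q : ℝ) ^ A.card := by
  classical
  obtain ⟨C0, c0, hC0, hc0, hmain⟩ := hfew
  have hC0' : (1 : ℝ) ≤ (C0 : ℝ) := by exact_mod_cast hC0
  obtain ⟨N1, hN1⟩ : ∃ N1 : ℝ, N1 = Real.exp (Real.exp (2 * |Real.log δ| + 1)) := ⟨_, rfl⟩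
  have hN1p : 1 ≤ N1 := by
    rw [hN1]
    exact Real.one_le_exp (Real.exp_pos _).le
  obtain ⟨c, hc, hcc0, hcδ, hcN⟩ : ∃ c : ℝ, 0 < c ∧ c ≤ c0 ∧ c ≤ c0 * δ / 2 ∧
      c * N1 ^ k ≤ 1 := by
    refine ⟨min c0 (min (c0 * δ / 2) (1 / N1 ^ k)), by positivity, min_le_left _ _,
      (min_le_right _ _).trans (min_le_left _ _), ?_⟩
    have h1 : min c0 (min (c0 * δ / 2) (1 / N1 ^ k)) ≤ 1 / N1 ^ k :=
      (min_le_right _ _).trans (min_le_right _ _)
    have h2 : 0 < N1 ^ k := by positivity
    calc min c0 (min (c0 * δ / 2) (1 / N1 ^ k)) * N1 ^ k ≤ 1 / N1 ^ k * N1 ^ k :=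
          mul_le_mul_of_nonneg_right h1 h2.le
      _ = 1 := by field_simp
  refine ⟨8 * (C0 : ℝ), c, by positivity, hc, ?_⟩
  intro A hA q hq hqA hint n hn hqn
  have hq0 : (0 : ℝ) < (q : ℝ) := by exact_mod_cast hq
  obtain ⟨N, hN⟩ : ∃ N : ℝ, N = (A.card : ℝ) := ⟨_, rfl⟩
  have hN1' : 1 ≤ N := by
    rw [hN]
    exact_mod_cast Finset.card_pos.2 hA
  have hNp : 0 < N := by linarith
  rw [← hN] at hqA hn hqn
  have hnp : 0 < n := by
    have : (0 : ℝ) < (n : ℝ) := lt_of_lt_of_le (Real.rpow_pos_of_pos hNp δ) hn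
    exact_mod_cast this
  by_cases hsmall : N < N1
  · -- small sets: nothing is bad
    have hempty : (univ : Finset ({a // a ∈ A} → Fin q)).filter (fun f =>
          ¬ ∀ B : Finset {a // a ∈ A}, n ≤ B.card →
            c * (B.card : ℝ) ^ ((k : ℝ) - ε) ≤
              ((kpr k (B.image
                (fun a : {a // a ∈ A} => (a : ℤ) + ((f a : ℕ) : ℤ)))).card : ℝ)) = ∅ := by
      rw [Finset.filter_eq_empty_iff]
      intro f _ hnot
      apply hnot
      intro B hB
      have hB0 : 0 < B.card := lt_of_lt_of_le hnp hB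
      have hB1 : (1 : ℝ) ≤ (B.card : ℝ) := by exact_mod_cast hB0
      have hBN : (B.card : ℝ) ≤ N1 := by
        have h1 : B.card ≤ A.card := by
          have := card_le_univ B
          rwa [Fintype.card_coe] at this
        have h2 : (B.card : ℝ) ≤ N := by
          rw [hN]
          exact_mod_cast h1
        linarith
      have h1 : (B.card : ℝ) ^ ((k : ℝ) - ε) ≤ N1 ^ k := by
        calc (B.card : ℝ) ^ ((k : ℝ) - ε) ≤ (B.card : ℝ) ^ (k : ℝ) :=
              Real.rpow_le_rpow_of_exponent_le hB1 (by linarith)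
          _ = (B.card : ℝ) ^ k := Real.rpow_natCast _ _
          _ ≤ N1 ^ k := pow_le_pow_left₀ (by positivity) hBN k
      have h2 : (1 : ℝ) ≤ ((kpr k (B.image
          (fun a : {a // a ∈ A} => (a : ℤ) + ((f a : ℕ) : ℤ)))).card : ℝ) := by
        have h3 : (kpr k (B.image
          (fun a : {a // a ∈ A} => (a : ℤ) + ((f a : ℕ) : ℤ)))).Nonempty := by
          unfold kpr
          exact (Fintype.piFinset_nonempty.2 fun _ => (Finset.card_pos.1 hB0).image _).image _
        exact_mod_cast Finset.card_pos.2 h3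
      calc c * (B.card : ℝ) ^ ((k : ℝ) - ε) ≤ c * N1 ^ k := mul_le_mul_of_nonneg_left h1 hc.le
        _ ≤ 1 := hcN
        _ ≤ _ := h2
    rw [hempty, Finset.card_empty, Nat.cast_zero]
    positivity
  · push Not at hsmall
    have hlogN : Real.exp (2 * |Real.log δ| + 1) ≤ Real.log N := by
      rw [Real.le_log_iff_exp_le hNp, ← hN1]
      exact hsmall
    have hlogNp : 0 < Real.log N := lt_of_lt_of_le (Real.exp_pos _) hlogN
    have hllN : 2 * |Real.log δ| + 1 ≤ Real.log (Real.log N) :=
      (Real.le_log_iff_exp_le hlogNp).2 hlogN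
    have hllNp : 0 ≤ Real.log (Real.log N) := by
      have := abs_nonneg (Real.log δ)
      linarith
    obtain ⟨bad, hbad⟩ : ∃ bad : Finset {a // a ∈ A} → Finset ({a // a ∈ A} → Fin q),
        ∀ B, bad B = (univ : Finset ({a // a ∈ A} → Fin q)).filter (fun f =>
          ¬ (c * (B.card : ℝ) ^ ((k : ℝ) - ε) ≤
              ((kpr k (B.image
                (fun a : {a // a ∈ A} => (a : ℤ) + ((f a : ℕ) : ℤ)))).card : ℝ))) :=
      ⟨_, fun _ => rfl⟩
    have hone : ∀ B : Finset {a // a ∈ A}, n ≤ B.card →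
        (bad B).card ≤ C0 ^ B.card * q ^ (Fintype.card {a // a ∈ A} - B.card) := by
      intro B hB
      have hB0 : 0 < B.card := lt_of_lt_of_le hnp hB
      have hBn : N ^ δ ≤ (B.card : ℝ) := hn.trans (by exact_mod_cast hB)
      have hB1 : (1 : ℝ) ≤ (B.card : ℝ) := by exact_mod_cast hB0
      have : Nonempty {b // b ∈ B} := by
        obtain ⟨b, hb⟩ := Finset.card_pos.1 hB0
        exact ⟨⟨b, hb⟩⟩
      have hlogB : δ * Real.log N ≤ Real.log (B.card : ℝ) := by
        have := Real.log_le_log (Real.rpow_pos_of_pos hNp δ) hBn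
        rwa [Real.log_rpow hNp] at this
      have hlogBp : 0 < Real.log (B.card : ℝ) := lt_of_lt_of_le (by positivity) hlogB
      have hllB : Real.log (Real.log N) / 2 ≤ Real.log (Real.log (B.card : ℝ)) := by
        have h1 := Real.log_le_log (by positivity) hlogB
        rw [Real.log_mul hδ.ne' hlogNp.ne'] at h1
        have h2 := neg_abs_le (Real.log δ)
        linarith
      have h3 := hmain {b // b ∈ B} (fun b => ((b : {a // a ∈ A}) : ℤ))
        (fun b b' hbb => Subtype.ext (Subtype.ext hbb)) q hq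
        (by
          rw [Fintype.card_coe]
          refine hqA.trans ?_
          rw [Real.rpow_def_of_pos hNp, Real.rpow_def_of_pos (by linarith)]
          apply Real.exp_le_exp.2
          have h4 : c * (Real.log N * Real.log (Real.log N)) ≤
              c0 * δ / 2 * (Real.log N * Real.log (Real.log N)) :=
            mul_le_mul_of_nonneg_right hcδ (by positivity)
          have h5 : δ * Real.log N * (Real.log (Real.log N) / 2) ≤
              Real.log (B.card : ℝ) * Real.log (Real.log (B.card : ℝ)) :=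
            mul_le_mul hlogB hllB (by linarith) hlogBp.le
          have h6 : c0 * (δ * Real.log N * (Real.log (Real.log N) / 2)) ≤
              c0 * (Real.log (B.card : ℝ) * Real.log (Real.log (B.card : ℝ))) :=
            mul_le_mul_of_nonneg_left h5 hc0.le
          nlinarith)
        (by
          intro x
          rw [Fintype.card_coe]
          have h5 : ((univ : Finset {b // b ∈ B}).filter (fun b : {b // b ∈ B} =>
              x ≤ b.1.1 ∧ b.1.1 < x + q)).card ≤
              (A.filter (fun a => x ≤ a ∧ a < x + q)).card := by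
            refine card_le_card_of_injOn (fun b : {b // b ∈ B} => b.1.1) ?_ ?_
            · intro b hb
              rw [mem_coe, mem_filter] at hb
              rw [mem_coe, mem_filter]
              exact ⟨b.1.2, hb.2⟩
            · intro b _ b' _ hbb
              exact Subtype.ext (Subtype.ext hbb)
          refine (Nat.cast_le.2 h5).trans ((hint x).trans ?_)
          rw [← hN]
          calc N ^ c ≤ N ^ (δ * c0) := by
                apply Real.rpow_le_rpow_of_exponent_le hN1'
                have : 0 < c0 * δ := by positivity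
                linarith
            _ = (N ^ δ) ^ c0 := Real.rpow_mul hNp.le _ _
            _ ≤ (B.card : ℝ) ^ c0 := Real.rpow_le_rpow (by positivity) hBn hc0.le)
      rw [Fintype.card_coe] at h3
      refine (card_restrict q B _ (bad B) ?_).trans (Nat.mul_le_mul_right _ h3)
      intro f hf
      rw [hbad, mem_filter] at hf
      refine mem_filter.2 ⟨mem_univ _, ?_⟩
      intro h4
      apply hf.2
      have h5 : per (fun b : {b // b ∈ B} => ((b : {a // a ∈ A}) : ℤ))
          (fun a : {a // a ∈ B} => f a) =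
          B.image (fun a : {a // a ∈ A} => (a : ℤ) + ((f a : ℕ) : ℤ)) := by
        ext z
        simp only [per, mem_image, mem_univ, true_and]
        constructor
        · rintro ⟨⟨a, ha⟩, rfl⟩
          exact ⟨a, ha, rfl⟩
        · rintro ⟨a, ha, rfl⟩
          exact ⟨⟨a, ha⟩, rfl⟩
      rw [h5] at h4
      rw [kpr_eq]
      exact (mul_le_mul_of_nonneg_right hcc0 (by positivity)).trans h4
    have hsub : (univ : Finset ({a // a ∈ A} → Fin q)).filter (fun f =>
          ¬ ∀ B : Finset {a // a ∈ A}, n ≤ B.card →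
            c * (B.card : ℝ) ^ ((k : ℝ) - ε) ≤
              ((kpr k (B.image
                (fun a : {a // a ∈ A} => (a : ℤ) + ((f a : ℕ) : ℤ)))).card : ℝ)) ⊆
        ((univ : Finset (Finset {a // a ∈ A})).filter (fun B => n ≤ B.card)).biUnion bad := by
      intro f hf
      have h1 := (mem_filter.1 hf).2
      push Not at h1
      obtain ⟨B, hB1, hB2⟩ := h1
      refine mem_biUnion.2 ⟨B, mem_filter.2 ⟨mem_univ _, hB1⟩, ?_⟩
      rw [hbad]
      exact mem_filter.2 ⟨mem_univ _, not_le.2 hB2⟩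
    have hcardA : Fintype.card {a // a ∈ A} = A.card := Fintype.card_coe A
    have hterm : ∀ B ∈ (univ : Finset (Finset {a // a ∈ A})).filter (fun B => n ≤ B.card),
        ((bad B).card : ℝ) ≤ ((C0 : ℝ) / (q : ℝ)) ^ B.card * (q : ℝ) ^ A.card := by
      intro B hB
      have h1 : ((bad B).card : ℝ) ≤
          (C0 : ℝ) ^ B.card * (q : ℝ) ^ (Fintype.card {a // a ∈ A} - B.card) := by
        exact_mod_cast hone B (mem_filter.1 hB).2
      refine h1.trans (le_of_eq ?_)
      have hBA : B.card ≤ A.card := by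
        have := card_le_univ B
        rwa [Fintype.card_coe] at this
      rw [hcardA]
      have h6 : (q : ℝ) ^ A.card = (q : ℝ) ^ B.card * (q : ℝ) ^ (A.card - B.card) := by
        rw [← pow_add]
        congr 1
        omega
      rw [h6, div_pow]
      field_simp
    calc (((univ : Finset ({a // a ∈ A} → Fin q)).filter (fun f =>
          ¬ ∀ B : Finset {a // a ∈ A}, n ≤ B.card →
            c * (B.card : ℝ) ^ ((k : ℝ) - ε) ≤
              ((kpr k (B.image
                (fun a : {a // a ∈ A} => (a : ℤ) + ((f a : ℕ) : ℤ)))).card : ℝ))).card : ℝ)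
        ≤ ((((univ : Finset (Finset {a // a ∈ A})).filter
            (fun B => n ≤ B.card)).biUnion bad).card : ℝ) := by
          exact_mod_cast card_le_card hsub
      _ ≤ ∑ B ∈ (univ : Finset (Finset {a // a ∈ A})).filter (fun B => n ≤ B.card),
          ((bad B).card : ℝ) := by
          exact_mod_cast card_biUnion_le
      _ ≤ ∑ B ∈ (univ : Finset (Finset {a // a ∈ A})).filter (fun B => n ≤ B.card),
          ((C0 : ℝ) / (q : ℝ)) ^ B.card * (q : ℝ) ^ A.card := sum_le_sum hterm
      _ = (∑ B ∈ (univ : Finset (Finset {a // a ∈ A})).filter (fun B => n ≤ B.card),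
          ((C0 : ℝ) / (q : ℝ)) ^ B.card) * (q : ℝ) ^ A.card := by rw [sum_mul]
      _ ≤ (1 / 2) ^ n * (q : ℝ) ^ A.card := by
          apply mul_le_mul_of_nonneg_right _ (by positivity)
          apply sum_large _ _ (by positivity)
          rw [hcardA, ← hN]
          have h1 : 8 * ((C0 : ℝ) / (q : ℝ)) * N = (8 * (C0 : ℝ) * N) / q := by ring
          rw [h1, div_le_iff₀ hq0]
          linarith

end Pool.Agent.Helper23.SM
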